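import Pool.Agent.H88.BL.Targets

/-! Row CGA: the characteristic function of the Gaussian. -/

set_option autoImplicit false
open MeasureTheory ProbabilityTheory Filter Topology Set
open scoped ENNReal NNReal

namespace Pool.Agent.H88.BL

theorem pf_CGA : T_CGA := by
  intro t h0 h1 y
  have h2 : 0 < 1 - t ^ 2 := by nlinarith
  rw [charFun_gaussianReal, Real.coe_toNNReal _ (by positivity)]
  unfold cg
  have h3 : (1 - (t : ℂ) ^ 2) ≠ 0 := by
    have : ((1 - t ^ 2 : ℝ) : ℂ) ≠ 0 := by exact_mod_cast h2.ne'
    simpa using this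
  push_cast
  congr 1
  field_simp
  ring

end Pool.Agent.H88.BL
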