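import Pool.Agent.H88.BL.Targets

/-! Row EK: the Erdos-Kahane bound in the frequency variable. -/

set_option autoImplicit false
open MeasureTheory ProbabilityTheory Filter Topology Set
open scoped ENNReal NNReal

namespace Pool.Agent.H88.BL

lemma gp_nonneg (t : ℝ) (M : ℕ) (y : ℝ) : 0 ≤ gp t M y :=
  Finset.prod_nonneg (fun _ _ => abs_nonneg _)

lemma gp_le_one (t : ℝ) (M : ℕ) (y : ℝ) : gp t M y ≤ 1 :=
  Finset.prod_le_one (fun _ _ => abs_nonneg _) (fun _ _ => Real.abs_cos_le_one _)

lemma gp_add (t : ℝ) (N M : ℕ) (y : ℝ) :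
    gp t (N + M) y = gp t N y * gp t M (y * t ^ N) := by
  unfold gp
  rw [Finset.prod_range_add]
  congr 1
  refine Finset.prod_congr rfl (fun n _ => ?_)
  rw [pow_add, mul_assoc]

lemma cost_pos (N : ℕ) : 0 < cost N := Real.exp_pos _

theorem pf_EK (hG : T_GOO) (hB : T_BAD) : T_EK := by
  intro t N hP W
  have hq0 : 0 < t ^ N := pow_pos hP.pos N
  have hlo := hP.lo
  have hhi := hP.hi
  have hc := cost_pos N
  induction W with
  | zero =>
    intro Y hS hY
    have h1 : ∀ y ∈ Y, 1 / 6 ≤ |y| ∧ |y| ≤ 1 / 2 := by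
      intro y hy
      obtain ⟨h2, h3⟩ := hY y hy
      simp only [pow_zero, mul_one, zero_add, pow_one] at h2 h3
      have h4 : 0 ≤ |y| := abs_nonneg y
      constructor
      · linarith
      · have h5 : 6 * |y| * (1 / 3) ≤ 6 * |y| * t ^ N := by gcongr
        linarith
    have hcard : Y.card ≤ 7 := by
      have h2 : (Finset.Icc (-3 : ℤ) 3).card = 7 := by decide
      rw [← h2]
      refine Finset.card_le_card_of_injOn (fun y => ⌊6 * y⌋) ?_ ?_
      · intro y hy
        have h3 := abs_le.1 (h1 y hy).2
        simp only [Finset.coe_Icc, Set.mem_Icc]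
        constructor
        · rw [Int.le_floor]
          push_cast
          linarith [h3.1]
        · have h4 : ((⌊6 * y⌋ : ℤ) : ℝ) ≤ 3 := (Int.floor_le _).trans (by linarith [h3.2])
          exact_mod_cast h4
      · intro x hx y hy hxy
        by_contra hne
        have h3 := hS x hx y hy hne
        simp only at hxy
        have h4 := Int.abs_sub_lt_one_of_floor_eq_floor hxy
        have h5 : |6 * x - 6 * y| = 6 * |x - y| := by
          rw [← mul_sub, abs_mul]; norm_num
        rw [h5] at h4
        linarith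
    have h2 : ∑ y ∈ Y, gp t (N * (0 + 1)) y ≤ ∑ _y ∈ Y, cost N := by
      refine Finset.sum_le_sum (fun y hy => ?_)
      rw [zero_add, mul_one]
      exact hB t N hP y (h1 y hy).1 (h1 y hy).2
    rw [Finset.sum_const, nsmul_eq_mul] at h2
    have h3 : (Y.card : ℝ) ≤ 7 := by exact_mod_cast hcard
    have h4 : (Y.card : ℝ) * cost N ≤ 7 * cost N := by gcongr
    rw [pow_zero, mul_one]
    exact h2.trans h4
  | succ W ih =>
    intro Y hS hY
    set M : ℝ := 7 * cost N * (1 + 4 * cost N) ^ W with hM
    set q : ℝ := t ^ N with hq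
    have hinj : Function.Injective (fun y : ℝ => y * q) := mul_left_injective₀ hq0.ne'
    -- a subset whose image is separated has a bounded sum
    have key : ∀ Z : Finset ℝ, Z ⊆ Y → (∀ x ∈ Z, ∀ y ∈ Z, x ≠ y → 1 / 6 ≤ |x * q - y * q|) →
        ∑ y ∈ Z, gp t (N * (W + 1)) (y * q) ≤ M := by
      intro Z hZ hsep
      have h1 := ih (Z.image (fun y => y * q)) ?_ ?_
      · rw [Finset.sum_image (fun x _ y _ h => hinj h)] at h1
        exact h1
      · intro u hu v hv huv
        obtain ⟨x, hx, rfl⟩ := Finset.mem_image.1 hu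
        obtain ⟨y, hy, rfl⟩ := Finset.mem_image.1 hv
        exact hsep x hx y hy (fun h => huv (by rw [h]))
      · intro u hu
        obtain ⟨x, hx, rfl⟩ := Finset.mem_image.1 hu
        obtain ⟨h2, h3⟩ := hY x (hZ hx)
        have h4 : |x * q| = |x| * q := by rw [abs_mul, abs_of_pos hq0]
        refine ⟨?_, ?_⟩
        · show 1 ≤ 6 * |x * q| * q ^ W
          rw [h4]
          calc (1 : ℝ) ≤ 6 * |x| * q ^ (W + 1) := h2
            _ = 6 * (|x| * q) * q ^ W := by ring
        · show 6 * |x * q| * q ^ (W + 1) ≤ 1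
          rw [h4]
          calc 6 * (|x| * q) * q ^ (W + 1) = 6 * |x| * q ^ (W + 1 + 1) := by ring
            _ ≤ 1 := h3
    have hsplit : ∀ y : ℝ, gp t (N * (W + 1 + 1)) y = gp t N y * gp t (N * (W + 1)) (y * q) := by
      intro y
      rw [show N * (W + 1 + 1) = N + N * (W + 1) by ring, gp_add]
    rw [← Finset.sum_filter_add_sum_filter_not Y (fun y => cost N < gp t N y)]
    have hgood : ∑ y ∈ Y.filter (fun y => cost N < gp t N y), gp t (N * (W + 1 + 1)) y ≤ M := by
      refine le_trans (Finset.sum_le_sum (fun y _ => ?_)) (key _ (Finset.filter_subset _ _) ?_)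
      · rw [hsplit]
        exact mul_le_of_le_one_left (gp_nonneg _ _ _) (gp_le_one _ _ _)
      · intro x hx y hy hxy
        rw [Finset.mem_filter] at hx hy
        have h1 := hS x hx.1 y hy.1 hxy
        have h2 : ¬ |x - y| ≤ 1 / 2 := by
          intro h3
          have := hG t N hP x y h3 hx.2 hy.2
          linarith
        rw [not_le] at h2
        rw [← sub_mul, abs_mul, abs_of_pos hq0]
        calc (1 / 6 : ℝ) = 1 / 2 * (1 / 3) := by norm_num
          _ ≤ |x - y| * q := by gcongr
    have hbad : ∑ y ∈ Y.filter (fun y => ¬ cost N < gp t N y), gp t (N * (W + 1 + 1)) y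
        ≤ 4 * cost N * M := by
      set Z := Y.filter (fun y => ¬ cost N < gp t N y) with hZ
      have h1 : ∑ y ∈ Z, gp t (N * (W + 1 + 1)) y
          ≤ cost N * ∑ y ∈ Z, gp t (N * (W + 1)) (y * q) := by
        rw [Finset.mul_sum]
        refine Finset.sum_le_sum (fun y hy => ?_)
        rw [hsplit]
        have h2 : gp t N y ≤ cost N := not_lt.1 (Finset.mem_filter.1 hy).2
        exact mul_le_mul_of_nonneg_right h2 (gp_nonneg _ _ _)
      have h2 : ∑ y ∈ Z, gp t (N * (W + 1)) (y * q) ≤ 4 * M := by
        have h3 : ∀ y ∈ Z, ⌊18 * (y * q)⌋ % 4 ∈ Finset.Ico (0 : ℤ) 4 := by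
          intro y _
          rw [Finset.mem_Ico]
          exact ⟨Int.emod_nonneg _ (by norm_num), Int.emod_lt_of_pos _ (by norm_num)⟩
        rw [← Finset.sum_fiberwise_of_maps_to h3]
        have h4 : ∀ c ∈ Finset.Ico (0 : ℤ) 4,
            ∑ y ∈ Z.filter (fun y => ⌊18 * (y * q)⌋ % 4 = c), gp t (N * (W + 1)) (y * q) ≤ M := by
          intro c _
          refine key _ ((Finset.filter_subset _ _).trans (Finset.filter_subset _ _)) ?_
          intro x hx y hy hxy
          rw [Finset.mem_filter] at hx hy
          have h5 := hS x (Finset.mem_filter.1 hx.1).1 y (Finset.mem_filter.1 hy.1).1 hxy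
          have h6 : 1 ≤ |18 * (x * q) - 18 * (y * q)| := by
            rw [← mul_sub, ← sub_mul, abs_mul, abs_mul, abs_of_pos hq0]
            have : (1 : ℝ) = 18 * (1 / 6 * (1 / 3)) := by norm_num
            rw [this]
            have h7 : |(18 : ℝ)| = 18 := by norm_num
            rw [h7]
            gcongr
          have h7 : ⌊18 * (x * q)⌋ ≠ ⌊18 * (y * q)⌋ := by
            intro h8
            have := Int.abs_sub_lt_one_of_floor_eq_floor h8
            linarith
          have h8 : ⌊18 * (x * q)⌋ % 4 = ⌊18 * (y * q)⌋ % 4 := by rw [hx.2, hy.2]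
          have h9 : (3 : ℝ) < |18 * (x * q) - 18 * (y * q)| := by
            have f1 := Int.floor_le (18 * (x * q))
            have f2 := Int.lt_floor_add_one (18 * (x * q))
            have f3 := Int.floor_le (18 * (y * q))
            have f4 := Int.lt_floor_add_one (18 * (y * q))
            rcases lt_or_gt_of_ne h7 with hlt | hlt
            · have g1 : ⌊18 * (x * q)⌋ + 4 ≤ ⌊18 * (y * q)⌋ := by omega
              have g2 : ((⌊18 * (x * q)⌋ : ℤ) : ℝ) + 4 ≤ (⌊18 * (y * q)⌋ : ℤ) := by
                exact_mod_cast g1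
              rw [lt_abs]
              right
              linarith
            · have g1 : ⌊18 * (y * q)⌋ + 4 ≤ ⌊18 * (x * q)⌋ := by omega
              have g2 : ((⌊18 * (y * q)⌋ : ℤ) : ℝ) + 4 ≤ (⌊18 * (x * q)⌋ : ℤ) := by
                exact_mod_cast g1
              rw [lt_abs]
              left
              linarith
          have h10 : |18 * (x * q) - 18 * (y * q)| = 18 * |x * q - y * q| := by
            rw [← mul_sub, abs_mul]; norm_num
          rw [h10] at h9
          linarith
        refine (Finset.sum_le_sum h4).trans ?_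
        rw [Finset.sum_const, nsmul_eq_mul]
        have : ((Finset.Ico (0 : ℤ) 4).card : ℝ) = 4 := by
          have h11 : (Finset.Ico (0 : ℤ) 4).card = 4 := by decide
          rw [h11]; norm_num
        rw [this]
      calc ∑ y ∈ Z, gp t (N * (W + 1 + 1)) y
          ≤ cost N * ∑ y ∈ Z, gp t (N * (W + 1)) (y * q) := h1
        _ ≤ cost N * (4 * M) := by gcongr
        _ = 4 * cost N * M := by ring
    calc _ ≤ M + 4 * cost N * M := add_le_add hgood hbad
      _ = 7 * cost N * (1 + 4 * cost N) ^ (W + 1) := by rw [hM]; ring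

end Pool.Agent.H88.BL
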