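import Pool.Agent.H88.BL.Targets

/-! Row FRO: the bound for intervals of all lengths. -/

set_option autoImplicit false
open MeasureTheory ProbabilityTheory Filter Topology Set
open scoped ENNReal NNReal

namespace Pool.Agent.H88.BL

lemma num_bound {κ η x : ℝ} (hκ : 0 < κ) (hκη : κ ≤ η ^ 2) (hη0 : 0 < η) (hη : η ≤ 1 / 12)
    (hx : 0 ≤ x) (R : ℕ) (hR : (R : ℝ) ≤ 2 + 3 / 2 * x) :
    40 * (R + 1) * κ * (1 + 4 * κ) ^ R ≤ 720 * η * Real.exp (η * x) := by
  have h1 : (1 + 4 * κ) ^ R ≤ 3 * Real.exp (η * x / 2) := by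
    have h2 : 1 + 4 * κ ≤ Real.exp (4 * κ) := by
      have := Real.add_one_le_exp (4 * κ)
      linarith
    have h3 : (1 + 4 * κ) ^ R ≤ Real.exp (4 * κ) ^ R := by gcongr
    rw [← Real.exp_nat_mul] at h3
    have h4 : (R : ℝ) * (4 * κ) ≤ 1 + η * x / 2 := by
      have h5 : (R : ℝ) * (4 * κ) ≤ (2 + 3 / 2 * x) * (4 * η ^ 2) := by
        gcongr
      have h6 : (2 + 3 / 2 * x) * (4 * η ^ 2) = 8 * η ^ 2 + 6 * η * (η * x) := by ring
      have h7 : 8 * η ^ 2 ≤ 1 := by nlinarith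
      have h8 : 6 * η * (η * x) ≤ 1 / 2 * (η * x) := by
        have : 0 ≤ η * x := by positivity
        have h9 : 6 * η ≤ 1 / 2 := by linarith
        exact mul_le_mul_of_nonneg_right h9 this
      linarith
    calc (1 + 4 * κ) ^ R ≤ Real.exp (R * (4 * κ)) := h3
      _ ≤ Real.exp (1 + η * x / 2) := Real.exp_le_exp.2 h4
      _ = Real.exp 1 * Real.exp (η * x / 2) := Real.exp_add _ _
      _ ≤ 3 * Real.exp (η * x / 2) := by
        have := Real.exp_one_lt_d9
        gcongr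
        linarith
  have h2 : 40 * ((R : ℝ) + 1) * κ ≤ 240 * η * Real.exp (η * x / 2) := by
    have h3 : 40 * ((R : ℝ) + 1) * κ ≤ 40 * (3 + 3 / 2 * x) * η ^ 2 := by
      have h30 : 40 * ((R : ℝ) + 1) ≤ 40 * (3 + 3 / 2 * x) := by linarith
      exact mul_le_mul h30 hκη hκ.le (by positivity)
    have h4 : 40 * (3 + 3 / 2 * x) * η ^ 2 = 120 * η * η + 120 * η * (η * x / 2) := by ring
    have h5 : η * x / 2 + 1 ≤ Real.exp (η * x / 2) := Real.add_one_le_exp _
    have h6 : 1 ≤ Real.exp (η * x / 2) := Real.one_le_exp (by positivity)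
    have h7 : 120 * η * η ≤ 120 * η * Real.exp (η * x / 2) := by
      gcongr
      linarith
    have h8 : 120 * η * (η * x / 2) ≤ 120 * η * Real.exp (η * x / 2) := by
      gcongr
      linarith
    linarith
  have h9 : Real.exp (η * x / 2) * Real.exp (η * x / 2) = Real.exp (η * x) := by
    rw [← Real.exp_add]; ring_nf
  calc 40 * (R + 1) * κ * (1 + 4 * κ) ^ R
      ≤ (240 * η * Real.exp (η * x / 2)) * (3 * Real.exp (η * x / 2)) := by
        gcongr
    _ = 720 * η * (Real.exp (η * x / 2) * Real.exp (η * x / 2)) := by ring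
    _ = 720 * η * Real.exp (η * x) := by rw [h9]

lemma exR {l : ℝ} (hl : 0 < l) (hl1 : l ≤ 1) :
    ∃ R : ℕ, 2 / (11 / 10 * l) ≤ 2 ^ R ∧ (R : ℝ) ≤ 2 + 3 / 2 * Real.log (1 / l) := by
  refine ⟨⌈Real.logb 2 (2 / (11 / 10 * l))⌉₊, ?_, ?_⟩
  · have h1 : 0 < 2 / (11 / 10 * l) := by positivity
    calc 2 / (11 / 10 * l) = (2 : ℝ) ^ (Real.logb 2 (2 / (11 / 10 * l))) :=
          (Real.rpow_logb (by norm_num) (by norm_num) h1).symm
      _ ≤ (2 : ℝ) ^ ((⌈Real.logb 2 (2 / (11 / 10 * l))⌉₊ : ℕ) : ℝ) :=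
          Real.rpow_le_rpow_of_exponent_le (by norm_num) (Nat.le_ceil _)
      _ = _ := Real.rpow_natCast _ _
  · have h1 : Real.logb 2 (2 / (11 / 10 * l)) ≤ 1 + 3 / 2 * Real.log (1 / l) := by
      have h2 : Real.logb 2 (2 / (11 / 10 * l)) ≤ Real.logb 2 (2 * (1 / l)) := by
        refine Real.logb_le_logb_of_le (by norm_num) (by positivity) ?_
        rw [div_le_iff₀ (by positivity)]
        have h3 : 2 * (1 / l) * (11 / 10 * l) = 11 / 5 := by field_simp; norm_num
        rw [h3]; norm_num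
      have h3 : Real.logb 2 (2 * (1 / l)) = 1 + Real.log (1 / l) / Real.log 2 := by
        rw [Real.logb_mul (by norm_num) (by positivity), Real.logb_self_eq_one (by norm_num)]
        rfl
      have h4 : 0 ≤ Real.log (1 / l) := Real.log_nonneg (by
        rw [le_div_iff₀ hl]; linarith)
      have h5 : Real.log (1 / l) / Real.log 2 ≤ 3 / 2 * Real.log (1 / l) := by
        have h6 := Real.log_two_gt_d9
        rw [div_le_iff₀ (by linarith)]
        nlinarith
      linarith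
    have h2 : 0 ≤ Real.logb 2 (2 / (11 / 10 * l)) := by
      refine Real.logb_nonneg (by norm_num) ?_
      rw [le_div_iff₀ (by positivity)]
      linarith
    have h3 := (Nat.ceil_lt_add_one h2).le
    linarith

/-- The numerical facts about parameters near one. -/
lemma near_num {t : ℝ} {N : ℕ} (ht : 1 - t ≤ 1 / (1300 * 400000000)) (h1 : t < 1)
    (hN : 1 / (1 - t) - 1 ≤ N) :
    cost N ≤ (Real.exp (-(1 / (1300 * (1 - t))))) ^ 2 ∧
    Real.exp (-(1 / (1300 * (1 - t)))) ≤ 1 / 12 ∧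
    720 * Real.exp (-(1 / (1300 * (1 - t)))) ≤ √(1 - t) ∧
    4 / √N ≤ 5 * √(1 - t) := by
  set h : ℝ := 1 - t with hh
  have h0 : 0 < h := by linarith
  set z : ℝ := 1 / (1300 * h) with hz
  have hz0 : 400000000 ≤ z := by
    rw [hz, le_div_iff₀ (by positivity)]
    rw [le_div_iff₀ (by norm_num)] at ht
    linarith
  have hhz : h = 1 / (1300 * z) := by
    rw [hz]; field_simp
  have hN1 : 1296 * z ≤ N := by
    have g1 : 1 / h = 1300 * z := by rw [hz]; field_simp
    rw [g1] at hN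
    linarith
  have e1 : Real.exp (-z) ^ 2 = Real.exp (-(2 * z)) := by
    rw [← Real.exp_nat_mul]; push_cast; ring_nf
  have e2 : Real.exp (-(2 * z)) ≤ 1 / (2 * z ^ 2) := by
    have g1 : (2 * z) ^ 2 / 2 ≤ Real.exp (2 * z) := by
      have := Real.pow_div_factorial_le_exp (2 * z) (by linarith) 2
      simpa using this
    rw [Real.exp_neg, inv_eq_one_div]
    exact one_div_le_one_div_of_le (by positivity) (by linarith)
  refine ⟨?_, ?_, ?_, ?_⟩
  · rw [e1]
    unfold cost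
    refine Real.exp_le_exp.2 ?_
    linarith
  · have g1 : z ≤ Real.exp z := by
      have := Real.add_one_le_exp z
      linarith
    rw [Real.exp_neg, inv_eq_one_div]
    exact one_div_le_one_div_of_le (by norm_num) (by linarith)
  · refine Real.le_sqrt_of_sq_le ?_
    rw [mul_pow, e1, hhz]
    calc (720 : ℝ) ^ 2 * Real.exp (-(2 * z)) ≤ 720 ^ 2 * (1 / (2 * z ^ 2)) := by gcongr
      _ ≤ 1 / (1300 * z) := by
        rw [mul_one_div, div_le_div_iff₀ (by positivity) (by positivity)]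
        nlinarith
  · have hN0 : 0 < (N : ℝ) := by linarith
    have g1 : √N * √h = √(N * h) := (Real.sqrt_mul hN0.le _).symm
    rw [div_le_iff₀ (Real.sqrt_pos.2 hN0)]
    have g2 : 5 * √h * √N = 5 * √(N * h) := by rw [mul_assoc, mul_comm (√h), g1]
    rw [g2]
    have g3 : (4 / 5 : ℝ) ≤ √(N * h) := by
      refine Real.le_sqrt_of_sq_le ?_
      rw [hhz]
      have g4 : 1296 / 1300 ≤ (N : ℝ) * (1 / (1300 * z)) := by
        rw [mul_one_div, div_le_div_iff₀ (by norm_num) (by positivity)]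
        nlinarith
      linarith
    linarith

theorem pf_FRO (hSM : T_SM) (hHF : T_HF) (hLF : T_LF) (hWIN : T_WIN) : T_FRO := by
  obtain ⟨t₀, ht₀, hW⟩ := hWIN
  refine ⟨max t₀ (1 - 1 / (1300 * 400000000)), max_lt ht₀ (by norm_num), ?_⟩
  intro t ht ht1 a b hab hb1
  rw [max_lt_iff] at ht
  obtain ⟨N, hP, hN2, hN⟩ := hW t ht.1 ht1
  obtain ⟨c1, c2, c3, c4⟩ := near_num (by linarith [ht.2]) ht1 hN
  set η : ℝ := Real.exp (-(1 / (1300 * (1 - t)))) with hη
  have hη0 : 0 < η := Real.exp_pos _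
  set l : ℝ := b - a with hl
  have hl0 : 0 < l := by linarith
  have hl1 : l ≤ 1 := by linarith
  obtain ⟨R, hR1, hR2⟩ := exR hl0 hl1
  have hκ : 0 < cost N := Real.exp_pos _
  have hκ16 : cost N ≤ 1 / 16 := by
    have : η ^ 2 ≤ (1 / 12) ^ 2 := by gcongr
    linarith
  have hx : 0 ≤ Real.log (1 / l) := Real.log_nonneg (by
    rw [le_div_iff₀ hl0]; linarith)
  have hnum := num_bound hκ c1 hη0 c2 hx R hR2
  -- the Fourier bound
  have hprob : IsProbabilityMeasure (Pool.Agent.H91.BC.nu t) :=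
    Pool.Agent.H91.BC.law_prob (Pool.Agent.H91.BC.summable_geo hP.pos ht1)
  have h1 : Pool.Agent.H91.BC.nu t (Icc a b)
      ≤ Pool.Agent.H91.BC.nu t (Ioo (a - l / 20) (b + l / 20)) :=
    measure_mono (fun y hy => ⟨by linarith [hy.1], by linarith [hy.2]⟩)
  have h2 := hSM (Pool.Agent.H91.BC.nu t) (0 : Measure ℝ) (a - l / 20) (b + l / 20)
    (by linarith)
  simp only [Measure.coe_zero, Pi.zero_apply, zero_add] at h2
  set l' : ℝ := 11 / 10 * l with hl'
  have hl'0 : 0 < l' := by positivity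
  have h3 : (b + l / 20 - (a - l / 20)) / 2 = l' / 2 := by rw [hl', hl]; ring
  rw [h3] at h2
  have hcz : ∀ y : ℝ, charFun (0 : Measure ℝ) y = 0 := by
    intro y
    simp [charFun]
  have h4 : ∀ y : ℝ, ENNReal.ofReal (‖charFun (Pool.Agent.H91.BC.nu t) (Real.pi * y)
      - charFun (0 : Measure ℝ) (Real.pi * y)‖ * min (l' / 2) (1 / |y|))
      = ENNReal.ofReal (‖cf t y‖ * min (l' / 2) (1 / |y|)) := by
    intro y
    rw [hcz, sub_zero]
    rfl
  simp only [h4] at h2
  have hsplit : ∫⁻ y : ℝ, ENNReal.ofReal (‖cf t y‖ * min (l' / 2) (1 / |y|))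
      ≤ (∫⁻ y in {y : ℝ | |y| ≤ 1 / 6}, ENNReal.ofReal (‖cf t y‖ * min (l' / 2) (1 / |y|)))
        + ∫⁻ y in {y : ℝ | 1 / 6 ≤ |y|}, ENNReal.ofReal (‖cf t y‖ * min (l' / 2) (1 / |y|)) := by
    have hu : (univ : Set ℝ) = {y : ℝ | |y| ≤ 1 / 6} ∪ {y : ℝ | 1 / 6 ≤ |y|} := by
      ext y
      simp only [mem_univ, mem_union, true_iff]
      exact le_total |y| (1 / 6)
    conv_lhs => rw [← setLIntegral_univ, hu]
    exact lintegral_union_le _ _ _
  have hlow : ∫⁻ y in {y : ℝ | |y| ≤ 1 / 6}, ENNReal.ofReal (‖cf t y‖ * min (l' / 2) (1 / |y|))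
      ≤ ENNReal.ofReal (l' / 2) * ENNReal.ofReal (4 / √N) := by
    refine le_trans ?_ (mul_le_mul_right (hLF t N hP) _)
    rw [← lintegral_const_mul' _ _ ENNReal.ofReal_ne_top]
    refine lintegral_mono (fun y => ?_)
    rw [← ENNReal.ofReal_mul (by positivity)]
    refine ENNReal.ofReal_le_ofReal ?_
    rw [mul_comm]
    gcongr
    exact min_le_left _ _
  have hhigh : ∫⁻ y in {y : ℝ | 1 / 6 ≤ |y|}, ENNReal.ofReal (‖cf t y‖ * min (l' / 2) (1 / |y|))
      ≤ ENNReal.ofReal (l' / 2) *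
        ENNReal.ofReal (40 * (R + 1) * cost N * (1 + 4 * cost N) ^ R) := by
    refine le_trans ?_ (mul_le_mul_right (hHF t N hP hκ16 R) _)
    rw [← lintegral_const_mul' _ _ ENNReal.ofReal_ne_top]
    refine lintegral_mono (fun y => ?_)
    rw [← ENNReal.ofReal_mul (by positivity)]
    refine ENNReal.ofReal_le_ofReal ?_
    have g1 : min (l' / 2) (1 / |y|) ≤ l' / 2 * min 1 (2 ^ R / |y|) := by
      rw [mul_min_of_nonneg _ _ (by positivity), mul_one]
      refine min_le_min le_rfl ?_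
      rw [← mul_div_assoc]
      refine div_le_div_of_nonneg_right ?_ (abs_nonneg y)
      rw [div_le_iff₀ hl'0] at hR1
      linarith
    calc ‖cf t y‖ * min (l' / 2) (1 / |y|) ≤ ‖cf t y‖ * (l' / 2 * min 1 (2 ^ R / |y|)) := by
          gcongr
      _ = l' / 2 * (‖cf t y‖ * min 1 (2 ^ R / |y|)) := by ring
  refine h1.trans (h2.trans (hsplit.trans ((add_le_add hlow hhigh).trans ?_)))
  rw [← ENNReal.ofReal_mul (by positivity), ← ENNReal.ofReal_mul (by positivity),
    ← ENNReal.ofReal_add (by positivity) (by positivity)]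
  refine ENNReal.ofReal_le_ofReal ?_
  have hE : 1 ≤ Real.exp (η * Real.log (1 / l)) := Real.one_le_exp (by positivity)
  have hpow : l ^ (1 - η) = l * Real.exp (η * Real.log (1 / l)) := by
    rw [Real.rpow_sub hl0, Real.rpow_one, Real.rpow_def_of_pos hl0, one_div, Real.log_inv,
      div_eq_mul_inv, ← Real.exp_neg]
    congr 2
    ring
  rw [hpow]
  have hs0 : 0 ≤ √(1 - t) := Real.sqrt_nonneg _
  calc l' / 2 * (4 / √N) + l' / 2 * (40 * (R + 1) * cost N * (1 + 4 * cost N) ^ R)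
      ≤ l' / 2 * (5 * √(1 - t) * Real.exp (η * Real.log (1 / l)))
        + l' / 2 * (720 * η * Real.exp (η * Real.log (1 / l))) := by
        gcongr
        calc 4 / √(N : ℝ) ≤ 5 * √(1 - t) := c4
          _ ≤ 5 * √(1 - t) * Real.exp (η * Real.log (1 / l)) :=
            le_mul_of_one_le_right (by positivity) hE
    _ ≤ l' / 2 * (5 * √(1 - t) * Real.exp (η * Real.log (1 / l)))
        + l' / 2 * (√(1 - t) * Real.exp (η * Real.log (1 / l))) := by
        gcongr
    _ = 33 / 10 * (√(1 - t) * (l * Real.exp (η * Real.log (1 / l)))) := by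
        rw [hl']; ring
    _ ≤ 4 * (√(1 - t) * (l * Real.exp (η * Real.log (1 / l)))) := by
        gcongr
        norm_num
    _ = 4 * √(1 - t) * (l * Real.exp (η * Real.log (1 / l))) := by ring

end Pool.Agent.H88.BL
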