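import Pool.Agent.H88.BL.FRO

/-! Row LLT: the local limit theorem. -/

set_option autoImplicit false
open MeasureTheory ProbabilityTheory Filter Topology Set
open scoped ENNReal NNReal

namespace Pool.Agent.H88.BL

lemma exR2 {l η : ℝ} (hη : 0 < η) (hl : Real.exp (-(1 / η)) ≤ l) :
    ∃ R : ℕ, 2 / l ≤ 2 ^ R ∧ (R : ℝ) ≤ 2 + 3 / 2 * (1 / η) := by
  have hl0 : 0 < l := (Real.exp_pos _).trans_le hl
  refine ⟨⌈Real.logb 2 (2 / l)⌉₊, ?_, ?_⟩
  · have h1 : 0 < 2 / l := by positivity
    calc 2 / l = (2 : ℝ) ^ (Real.logb 2 (2 / l)) :=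
          (Real.rpow_logb (by norm_num) (by norm_num) h1).symm
      _ ≤ (2 : ℝ) ^ ((⌈Real.logb 2 (2 / l)⌉₊ : ℕ) : ℝ) :=
          Real.rpow_le_rpow_of_exponent_le (by norm_num) (Nat.le_ceil _)
      _ = _ := Real.rpow_natCast _ _
  · have h1 : Real.logb 2 (2 / l) ≤ 1 + 3 / 2 * (1 / η) := by
      have h3 : Real.logb 2 (2 / l) = 1 + Real.log (1 / l) / Real.log 2 := by
        rw [show 2 / l = 2 * (1 / l) by ring, Real.logb_mul (by norm_num) (by positivity),
          Real.logb_self_eq_one (by norm_num)]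
        rfl
      have h4 : Real.log (1 / l) ≤ 1 / η := by
        rw [one_div, Real.log_inv]
        have := Real.log_le_log (Real.exp_pos _) hl
        rw [Real.log_exp] at this
        linarith
      have h5 : Real.log (1 / l) / Real.log 2 ≤ 3 / 2 * (1 / η) := by
        have h6 := Real.log_two_gt_d9
        rw [div_le_iff₀ (by linarith)]
        have h7 : 0 < 1 / η := by positivity
        nlinarith
      linarith
    have h8 : (0 : ℝ) ≤ 3 / 2 * (1 / η) := by positivity
    rcases le_total 0 (Real.logb 2 (2 / l)) with h2 | h2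
    · have h3 := (Nat.ceil_lt_add_one h2).le
      linarith
    · rw [Nat.ceil_eq_zero.2 h2]
      push_cast
      linarith

/-- The Fourier integral for the difference. -/
lemma D_bound (hHF : T_HF) (hLG : T_LG) (hGH : T_GH) {t : ℝ} {N : ℕ} (hP : Par t N)
    (ht : 1 / 2 ≤ t) (hκ16 : cost N ≤ 1 / 16) {L : ℝ} (hL : 0 < L) {R : ℕ}
    (hR : 2 / L ≤ 2 ^ R) :
    ∫⁻ y : ℝ, ENNReal.ofReal (‖cf t y - (cg t y : ℂ)‖ * min (L / 2) (1 / |y|))
      ≤ ENNReal.ofReal (L / 2 * (2000 * (1 - t) ^ (3 / 2 : ℝ)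
        + 40 * (R + 1) * cost N * (1 + 4 * cost N) ^ R
        + 4 * Real.exp (-(1 / (30 * (1 - t)))))) := by
  have hκ : 0 < cost N := Real.exp_pos _
  have ht1 : 0 < 1 - t := by linarith [hP.lt]
  have hcg0 : ∀ y, 0 ≤ cg t y := fun y => (Real.exp_pos _).le
  have hsplit : ∫⁻ y : ℝ, ENNReal.ofReal (‖cf t y - (cg t y : ℂ)‖ * min (L / 2) (1 / |y|))
      ≤ (∫⁻ y in {y : ℝ | |y| ≤ 1 / 6},
          ENNReal.ofReal (‖cf t y - (cg t y : ℂ)‖ * min (L / 2) (1 / |y|)))
        + ∫⁻ y in {y : ℝ | 1 / 6 ≤ |y|},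
          ENNReal.ofReal (‖cf t y - (cg t y : ℂ)‖ * min (L / 2) (1 / |y|)) := by
    have hu : (univ : Set ℝ) = {y : ℝ | |y| ≤ 1 / 6} ∪ {y : ℝ | 1 / 6 ≤ |y|} := by
      ext y
      simp only [mem_univ, mem_union, true_iff]
      exact le_total |y| (1 / 6)
    conv_lhs => rw [← setLIntegral_univ, hu]
    exact lintegral_union_le _ _ _
  have hlow : ∫⁻ y in {y : ℝ | |y| ≤ 1 / 6},
        ENNReal.ofReal (‖cf t y - (cg t y : ℂ)‖ * min (L / 2) (1 / |y|))
      ≤ ENNReal.ofReal (L / 2) * ENNReal.ofReal (2000 * (1 - t) ^ (3 / 2 : ℝ)) := by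
    refine le_trans ?_ (mul_le_mul_right (hLG t ht hP.lt) _)
    rw [← lintegral_const_mul' _ _ ENNReal.ofReal_ne_top]
    refine lintegral_mono (fun y => ?_)
    rw [← ENNReal.ofReal_mul (by positivity)]
    refine ENNReal.ofReal_le_ofReal ?_
    rw [mul_comm]
    gcongr
    exact min_le_left _ _
  have hhigh : ∫⁻ y in {y : ℝ | 1 / 6 ≤ |y|},
        ENNReal.ofReal (‖cf t y - (cg t y : ℂ)‖ * min (L / 2) (1 / |y|))
      ≤ ENNReal.ofReal (L / 2) *
        (ENNReal.ofReal (40 * (R + 1) * cost N * (1 + 4 * cost N) ^ R)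
          + ENNReal.ofReal (4 * Real.exp (-(1 / (30 * (1 - t)))))) := by
    refine le_trans ?_ (mul_le_mul_right (add_le_add (hHF t N hP hκ16 R) (hGH t hP.pos hP.lt)) _)
    have hm : Measurable (fun y : ℝ => ENNReal.ofReal (cg t y)) := by
      unfold cg
      fun_prop
    rw [← lintegral_add_right _ hm, ← lintegral_const_mul' _ _ ENNReal.ofReal_ne_top]
    refine lintegral_mono (fun y => ?_)
    rw [← ENNReal.ofReal_add (by positivity) (hcg0 y), ← ENNReal.ofReal_mul (by positivity)]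
    refine ENNReal.ofReal_le_ofReal ?_
    have g1 : min (L / 2) (1 / |y|) ≤ L / 2 * min 1 (2 ^ R / |y|) := by
      rw [mul_min_of_nonneg _ _ (by positivity), mul_one]
      refine min_le_min le_rfl ?_
      rw [← mul_div_assoc]
      refine div_le_div_of_nonneg_right ?_ (abs_nonneg y)
      rw [div_le_iff₀ hL] at hR
      linarith
    have g2 : ‖cf t y - (cg t y : ℂ)‖ ≤ ‖cf t y‖ + cg t y := by
      refine (norm_sub_le _ _).trans ?_
      rw [Complex.norm_real, Real.norm_of_nonneg (hcg0 y)]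
    have g3 : 0 ≤ min (1 : ℝ) (2 ^ R / |y|) := by positivity
    have g4 : min (1 : ℝ) (2 ^ R / |y|) ≤ 1 := min_le_left _ _
    calc ‖cf t y - (cg t y : ℂ)‖ * min (L / 2) (1 / |y|)
        ≤ (‖cf t y‖ + cg t y) * (L / 2 * min 1 (2 ^ R / |y|)) := by
          gcongr
          exact add_nonneg (norm_nonneg _) (hcg0 y)
      _ = L / 2 * (‖cf t y‖ * min 1 (2 ^ R / |y|) + cg t y * min 1 (2 ^ R / |y|)) := by ring
      _ ≤ L / 2 * (‖cf t y‖ * min 1 (2 ^ R / |y|) + cg t y) := by
          gcongr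
          exact mul_le_of_le_one_right (hcg0 y) g4
  refine hsplit.trans ((add_le_add hlow hhigh).trans ?_)
  have hp : 0 ≤ (1 - t) ^ (3 / 2 : ℝ) := Real.rpow_nonneg ht1.le _
  rw [← ENNReal.ofReal_add (by positivity) (by positivity),
    ← ENNReal.ofReal_mul (by positivity), ← ENNReal.ofReal_mul (by positivity),
    ← ENNReal.ofReal_add (by positivity) (by positivity)]
  refine ENNReal.ofReal_le_ofReal (le_of_eq ?_)
  ring

lemma gauss_short {v : ℝ≥0} (hv : 1 ≤ v) (c d : ℝ) :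
    gaussianReal 0 v (Icc c d) ≤ ENNReal.ofReal (d - c) := by
  have hv0 : v ≠ 0 := by
    intro h
    rw [h] at hv
    exact absurd hv (by norm_num)
  rw [gaussianReal_apply _ hv0]
  have h1 : ∀ x, gaussianPDF 0 v x ≤ 1 := by
    intro x
    unfold gaussianPDF
    rw [ENNReal.ofReal_le_one]
    unfold gaussianPDFReal
    have h2 : 1 ≤ √(2 * Real.pi * v) := by
      rw [Real.one_le_sqrt]
      have h3 : (1 : ℝ) ≤ v := by exact_mod_cast hv
      have h4 := Real.pi_gt_three
      nlinarith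
    have h3 : (√(2 * Real.pi * v))⁻¹ ≤ 1 := inv_le_one_of_one_le₀ h2
    have h4 : Real.exp (-(x - 0) ^ 2 / (2 * v)) ≤ 1 := by
      rw [Real.exp_le_one_iff]
      have : 0 ≤ (x - 0) ^ 2 / (2 * (v : ℝ)) := by positivity
      rw [neg_div]
      linarith
    calc (√(2 * Real.pi * v))⁻¹ * Real.exp (-(x - 0) ^ 2 / (2 * v)) ≤ 1 * 1 := by
          gcongr
      _ = 1 := one_mul 1
  calc ∫⁻ x in Icc c d, gaussianPDF 0 v x ≤ ∫⁻ _x in Icc c d, 1 := lintegral_mono (fun x => h1 x)
    _ = ENNReal.ofReal (d - c) := by rw [setLIntegral_one, Real.volume_Icc]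

/-- More numerical facts about parameters near one. -/
lemma near_num2 {t : ℝ} (ht : 1 - t ≤ 1 / (1300 * 400000000)) (h1 : t < 1) :
    1960 * Real.exp (-(1 / (1300 * (1 - t)))) ≤ 10 * (1 - t) ^ (3 / 2 : ℝ) ∧
    4 * Real.exp (-(1 / (30 * (1 - t)))) ≤ (1 - t) ^ (3 / 2 : ℝ) ∧
    2 * (1 - t) ^ 2 ≤ (1 - t) ^ (3 / 2 : ℝ) := by
  set h : ℝ := 1 - t with hh
  have h0 : 0 < h := by linarith
  set z : ℝ := 1 / (1300 * h) with hz
  have hz0 : 400000000 ≤ z := by
    rw [hz, le_div_iff₀ (by positivity)]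
    rw [le_div_iff₀ (by norm_num)] at ht
    linarith
  have hhz : h = 1 / (1300 * z) := by
    rw [hz]; field_simp
  clear_value z
  have hg0 : 0 < h ^ (3 / 2 : ℝ) := Real.rpow_pos_of_pos h0 _
  have hg2 : (h ^ (3 / 2 : ℝ)) ^ 2 = h ^ 3 := by
    rw [← Real.rpow_natCast, ← Real.rpow_mul h0.le, ← Real.rpow_natCast]
    norm_num
  have e1 : Real.exp (-z) ^ 2 = Real.exp (-(2 * z)) := by
    rw [← Real.exp_nat_mul]; push_cast; ring_nf
  have e2 : Real.exp (-(2 * z)) ≤ 15 / (4 * z ^ 5) := by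
    have g1 : (2 * z) ^ 5 / 120 ≤ Real.exp (2 * z) := by
      have := Real.pow_div_factorial_le_exp (2 * z) (by linarith) 5
      simpa [Nat.factorial] using this
    rw [Real.exp_neg, inv_eq_one_div]
    rw [div_le_div_iff₀ (Real.exp_pos _) (by positivity)]
    nlinarith
  have e3 : Real.exp (-z) ^ 2 ≤ h ^ 3 / 40000 := by
    rw [e1, hhz]
    refine e2.trans ?_
    rw [div_pow, one_pow, div_div, div_le_div_iff₀ (by positivity) (by positivity)]
    have g1 : (400000000 : ℝ) ^ 2 ≤ z ^ 2 := by gcongr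
    have g2 : 0 < z ^ 3 := by positivity
    have g3 : (400000000 : ℝ) ^ 2 * z ^ 3 ≤ z ^ 2 * z ^ 3 := by gcongr
    have g4 : z ^ 2 * z ^ 3 = z ^ 5 := by ring
    rw [g4] at g3
    have g5 : 15 * ((1300 * z) ^ 3 * 40000) = 15 * 1300 ^ 3 * 40000 * z ^ 3 := by ring
    rw [g5]
    nlinarith
  have e4 : 200 * Real.exp (-z) ≤ h ^ (3 / 2 : ℝ) := by
    refine abs_le_of_sq_le_sq' ?_ hg0.le |>.2
    rw [hg2, mul_pow]
    linarith
  have h1' : h ≤ 1 / 4 := ht.trans (by norm_num)
  refine ⟨by linarith, ?_, ?_⟩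
  · have g1 : Real.exp (-(1 / (30 * h))) ≤ Real.exp (-z) := by
      refine Real.exp_le_exp.2 ?_
      have : z ≤ 1 / (30 * h) := by
        rw [hz]
        exact one_div_le_one_div_of_le (by positivity) (by linarith)
      linarith
    have g2 := Real.exp_pos (-z)
    linarith
  · refine abs_le_of_sq_le_sq' ?_ hg0.le |>.2
    rw [hg2]
    have : (2 * h ^ 2) ^ 2 = h ^ 3 * (4 * h) := by ring
    rw [this]
    refine mul_le_of_le_one_right (by positivity) (by linarith)

theorem pf_LLT (hSM : T_SM) (hHF : T_HF) (hLG : T_LG) (hGH : T_GH) (hCGA : T_CGA)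
    (_hCF : T_CF) (hWIN : T_WIN) : T_LLT := by
  obtain ⟨t₀, ht₀, hW⟩ := hWIN
  refine ⟨max t₀ (1 - 1 / (1300 * 400000000)), max_lt ht₀ (by norm_num), ?_⟩
  intro t ht ht1 a b hab
  rw [max_lt_iff] at ht
  obtain ⟨N, hP, hN2, hN⟩ := hW t ht.1 ht1
  have hsm : 1 - t ≤ 1 / (1300 * 400000000) := by linarith [ht.2]
  obtain ⟨c1, c2, -, -⟩ := near_num hsm ht1 hN
  obtain ⟨d1, d2, d3⟩ := near_num2 hsm ht1
  set η : ℝ := Real.exp (-(1 / (1300 * (1 - t)))) with hη
  have hη0 : 0 < η := Real.exp_pos _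
  set g : ℝ := (1 - t) ^ (3 / 2 : ℝ) with hg
  have hh0 : 0 < 1 - t := by linarith
  have hg0 : 0 < g := Real.rpow_pos_of_pos hh0 _
  have hg1 : g ≤ 1 / 1000 := by
    have g1 : g ≤ 1 - t := by
      calc g ≤ (1 - t) ^ (1 : ℝ) := by
            refine Real.rpow_le_rpow_of_exponent_ge hh0 (hsm.trans (by norm_num)) (by norm_num)
        _ = 1 - t := Real.rpow_one _
    exact g1.trans (hsm.trans (by norm_num))
  have hinv : Real.exp (1 / (1300 * (1 - t))) = 1 / η := by
    rw [hη, Real.exp_neg]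
    simp
  rw [hinv] at hab
  set l : ℝ := b - a with hl
  have hl0 : 0 < l := (Real.exp_pos _).trans_le hab
  have hκ : 0 < cost N := Real.exp_pos _
  have hκ16 : cost N ≤ 1 / 16 := by
    have : η ^ 2 ≤ (1 / 12) ^ 2 := by gcongr
    linarith
  have ht2 : 1 / 2 ≤ t := by
    have : 1 - t ≤ 1 / 2 := hsm.trans (by norm_num)
    linarith
  -- bound of the Fourier integral for intervals of length L ≥ l
  have hD : ∀ L : ℝ, l ≤ L →
      ∫⁻ y : ℝ, ENNReal.ofReal (‖cf t y - (cg t y : ℂ)‖ * min (L / 2) (1 / |y|))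
        ≤ ENNReal.ofReal (1010 * g * L) := by
    intro L hL
    have hL0 : 0 < L := hl0.trans_le hL
    obtain ⟨R, hR1, hR2⟩ := exR2 hη0 (hab.trans hL)
    refine (D_bound hHF hLG hGH hP ht2 hκ16 hL0 hR1).trans (ENNReal.ofReal_le_ofReal ?_)
    have hnum := num_bound hκ c1 hη0 c2 (x := 1 / η) (by positivity) R hR2
    have e1 : η * (1 / η) = 1 := by field_simp
    rw [e1] at hnum
    have e2 : 720 * η * Real.exp 1 ≤ 10 * g := by
      have := Real.exp_one_lt_d9
      have e3 : 720 * η * Real.exp 1 ≤ 720 * η * (196 / 72) := by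
        gcongr
        linarith
      linarith
    have e4 : L / 2 * (2000 * g + 40 * (R + 1) * cost N * (1 + 4 * cost N) ^ R
        + 4 * Real.exp (-(1 / (30 * (1 - t))))) ≤ L / 2 * (2000 * g + 10 * g + g) := by
      have e5 := hnum.trans e2
      refine mul_le_mul_of_nonneg_left ?_ (by positivity)
      linarith
    nlinarith
  have hprob : IsProbabilityMeasure (Pool.Agent.H91.BC.nu t) :=
    Pool.Agent.H91.BC.law_prob (Pool.Agent.H91.BC.summable_geo hP.pos ht1)
  set v : ℝ≥0 := Real.toNNReal (1 / (1 - t ^ 2)) with hv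
  have ht2' : 0 < 1 - t ^ 2 := by nlinarith [hP.pos]
  have hv1 : 1 ≤ v := by
    rw [hv, ← NNReal.coe_le_coe, Real.coe_toNNReal _ (by positivity)]
    rw [NNReal.coe_one, le_div_iff₀ ht2']
    nlinarith [sq_nonneg t]
  have hcgf : ∀ y : ℝ, charFun (gaussianReal 0 v) (Real.pi * y) = (cg t y : ℂ) :=
    fun y => hCGA t hP.pos ht1 y
  -- lower bound
  have hlow : gaussianReal 0 v (Icc a b) ≤ Pool.Agent.H91.BC.nu t (Icc a b)
      + ENNReal.ofReal (1010 * g * l) := by
    have h1 := hSM (gaussianReal 0 v) (Pool.Agent.H91.BC.nu t) a b (by linarith)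
    have h2 : ∀ y : ℝ, ENNReal.ofReal (‖charFun (gaussianReal 0 v) (Real.pi * y)
        - charFun (Pool.Agent.H91.BC.nu t) (Real.pi * y)‖ * min ((b - a) / 2) (1 / |y|))
        = ENNReal.ofReal (‖cf t y - (cg t y : ℂ)‖ * min (l / 2) (1 / |y|)) := by
      intro y
      rw [hcgf, norm_sub_rev]
      rfl
    simp only [h2] at h1
    have h3 : gaussianReal 0 v (Icc a b) = gaussianReal 0 v (Ioo a b) := by
      have hv0 : v ≠ 0 := by
        intro h
        rw [h] at hv1
        exact absurd hv1 (by norm_num)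
      have := nullSingletonClass_gaussianReal (μ := 0) hv0
      exact (measure_congr Ioo_ae_eq_Icc).symm
    rw [h3]
    refine h1.trans ?_
    gcongr
    exact hD l le_rfl
  -- upper bound
  have hup : Pool.Agent.H91.BC.nu t (Icc a b) ≤ gaussianReal 0 v (Icc a b)
      + ENNReal.ofReal (1020 * g * l) := by
    set s : ℝ := (1 - t) ^ 2 * l with hs
    have hs0 : 0 < s := by positivity
    have h0 : Pool.Agent.H91.BC.nu t (Icc a b)
        ≤ Pool.Agent.H91.BC.nu t (Ioo (a - s) (b + s)) :=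
      measure_mono (fun y hy => ⟨by linarith [hy.1], by linarith [hy.2]⟩)
    have h1 := hSM (Pool.Agent.H91.BC.nu t) (gaussianReal 0 v) (a - s) (b + s) (by linarith)
    have h2 : ∀ y : ℝ, ENNReal.ofReal (‖charFun (Pool.Agent.H91.BC.nu t) (Real.pi * y)
        - charFun (gaussianReal 0 v) (Real.pi * y)‖ * min ((b + s - (a - s)) / 2) (1 / |y|))
        = ENNReal.ofReal (‖cf t y - (cg t y : ℂ)‖ * min ((l + 2 * s) / 2) (1 / |y|)) := by
      intro y
      rw [hcgf, show b + s - (a - s) = l + 2 * s by rw [hl]; ring]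
      rfl
    simp only [h2] at h1
    have h3 : gaussianReal 0 v (Icc (a - s) (b + s))
        ≤ gaussianReal 0 v (Icc a b) + ENNReal.ofReal (2 * s) := by
      have g1 : Icc (a - s) (b + s) ⊆ Icc a b ∪ (Icc (a - s) a ∪ Icc b (b + s)) := by
        intro y hy
        rcases le_total y a with h4 | h4
        · exact Or.inr (Or.inl ⟨hy.1, h4⟩)
        · rcases le_total y b with h5 | h5
          · exact Or.inl ⟨h4, h5⟩
          · exact Or.inr (Or.inr ⟨h5, hy.2⟩)
      refine (measure_mono g1).trans ((measure_union_le _ _).trans ?_)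
      gcongr
      refine (measure_union_le _ _).trans ?_
      refine (add_le_add (gauss_short hv1 _ _) (gauss_short hv1 _ _)).trans ?_
      rw [← ENNReal.ofReal_add (by linarith) (by linarith)]
      refine ENNReal.ofReal_le_ofReal ?_
      linarith
    have h4 := hD (l + 2 * s) (by linarith)
    refine h0.trans (h1.trans ((add_le_add h3 h4).trans ?_))
    rw [add_assoc, ← ENNReal.ofReal_add (by positivity) (by positivity)]
    gcongr
    have g1 : 2 * s ≤ g * l := by
      rw [hs, ← mul_assoc]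
      gcongr
    have g2 : 1010 * g * (l + 2 * s) ≤ 1010 * g * l + 1010 * g * (g * l) := by
      rw [mul_add]
      gcongr
    have g3 : 1010 * g * (g * l) ≤ 2 * (g * l) := by
      gcongr
      linarith
    nlinarith
  -- real version
  have r1 : (gaussianReal 0 v).real (Icc a b)
      ≤ (Pool.Agent.H91.BC.nu t).real (Icc a b) + 1010 * g * l := by
    unfold Measure.real
    have := ENNReal.toReal_mono (by finiteness) hlow
    rwa [ENNReal.toReal_add (by finiteness) (by finiteness),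
      ENNReal.toReal_ofReal (by positivity)] at this
  have r2 : (Pool.Agent.H91.BC.nu t).real (Icc a b)
      ≤ (gaussianReal 0 v).real (Icc a b) + 1020 * g * l := by
    unfold Measure.real
    have := ENNReal.toReal_mono (by finiteness) hup
    rwa [ENNReal.toReal_add (by finiteness) (by finiteness),
      ENNReal.toReal_ofReal (by positivity)] at this
  have hgl : 0 ≤ g * l := by positivity
  rw [abs_le]
  constructor <;> nlinarith

end Pool.Agent.H88.BL
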