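import Pool.Agent.H88.BL.EK
import Pool.Agent.H88.BL.FRO
import Pool.Agent.H88.BL.LLT
import Pool.Agent.H88.BL.CGA
import Pool.Agent.H42.BL.COS
import Pool.Agent.H42.BL.NDT
import Pool.Agent.H32.BL.GOO
import Pool.Agent.H75.BL.DIS
import Pool.Agent.H75.BL.ISH
import Pool.Agent.H11.BL.CF
import Pool.Agent.H12.BL.HF
import Pool.Agent.H1.BL.LF
import Pool.Agent.H69.BL.LGP
import Pool.Agent.H69.BL.SM
import Pool.Agent.H50.BL.GH
import Pool.Agent.H5.BL.WIN

/-! Assembly. -/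

set_option autoImplicit false

namespace Pool.Agent.H88.BL

theorem cosb : T_COS := Pool.Agent.H42.BL.pf_COS
theorem ndt : T_NDT := Pool.Agent.H42.BL.pf_NDT
theorem goo : T_GOO := Pool.Agent.H32.BL.pf_GOO cosb ndt
theorem bad : T_BAD := Pool.Agent.H32.BL.pf_BAD cosb ndt
theorem ek : T_EK := pf_EK goo bad
theorem dis : T_DIS := Pool.Agent.H75.BL.pf_DIS
theorem ish : T_ISH := Pool.Agent.H75.BL.pf_ISH ek dis
theorem cfb : T_CF := Pool.Agent.H11.BL.pf_CF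
theorem hfr : T_HF := Pool.Agent.H12.BL.pf_HF ish cfb
theorem lfr : T_LF := Pool.Agent.H1.BL.pf_LF cosb ndt cfb
theorem lgp : T_LGP := Pool.Agent.H69.BL.pf_LGP cosb ndt
theorem lg : T_LG := Pool.Agent.H50.BL.pf_LG lgp
theorem gh : T_GH := Pool.Agent.H50.BL.pf_GH
theorem sm : T_SM := Pool.Agent.H69.BL.pf_SM
theorem win : T_WIN := Pool.Agent.H5.BL.pf_WIN
theorem fro : T_FRO := pf_FRO sm hfr lfr win
theorem llt : T_LLT := pf_LLT sm hfr lg gh pf_CGA cfb win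

end Pool.Agent.H88.BL
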