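import Pool.Agent.H91.BC.Clt

/-!
# Bernoulli convolutions near one: local limit theorem at doubly exponentially small scales

Definitions and targets (board bll_modules).
-/

set_option autoImplicit false
open MeasureTheory ProbabilityTheory Filter Topology Set
open scoped ENNReal NNReal

namespace Pool.Agent.H88.BL

/-- The product of the first M cosines. -/
noncomputable def gp (t : ℝ) (M : ℕ) (y : ℝ) : ℝ :=
  ∏ n ∈ Finset.range M, |Real.cos (Real.pi * (y * t ^ n))|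

/-- The distance to the nearest integer. -/
noncomputable def nd (y : ℝ) : ℝ := |y - round y|

/-- Distinct points are at distance at least 1/6. -/
def Sep (Y : Finset ℝ) : Prop := ∀ x ∈ Y, ∀ y ∈ Y, x ≠ y → 1 / 6 ≤ |x - y|

/-- The cost of a bad window of N factors. -/
noncomputable def cost (N : ℕ) : ℝ := Real.exp (-(N : ℝ) / 648)

/-- The W-th shell. -/
def shell (t : ℝ) (N W : ℕ) : Set ℝ :=
  {y | 1 ≤ 6 * |y| * (t ^ N) ^ W ∧ 6 * |y| * (t ^ N) ^ (W + 1) ≤ 1}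

/-- Parameter and window length. -/
structure Par (t : ℝ) (N : ℕ) : Prop where
  pos : 0 < t
  lt : t < 1
  N1 : 1 ≤ N
  lo : 1 / 3 ≤ t ^ N
  hi : t ^ N ≤ 1 / 2

/-- The characteristic function of the Bernoulli convolution at frequency pi y. -/
noncomputable def cf (t y : ℝ) : ℂ := charFun (Pool.Agent.H91.BC.nu t) (Real.pi * y)

/-- The characteristic function of the centred Gaussian of variance 1/(1-t^2) at pi y. -/
noncomputable def cg (t y : ℝ) : ℝ := Real.exp (-((Real.pi * y) ^ 2 / (2 * (1 - t ^ 2))))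

/-- COS -/
def T_COS : Prop := ∀ y : ℝ, |Real.cos (Real.pi * y)| ≤ Real.exp (-(2 * nd y ^ 2))

/-- NDT -/
def T_NDT : Prop := (∀ x y : ℝ, nd (x - y) ≤ nd x + nd y) ∧ (∀ z : ℝ, |z| ≤ 1 / 2 → nd z = |z|)

/-- GOO: two good points at distance at most 1/2 are at distance less than 1/6. -/
def T_GOO : Prop := ∀ (t : ℝ) (N : ℕ), Par t N → ∀ y y' : ℝ, |y - y'| ≤ 1 / 2 →
  cost N < gp t N y → cost N < gp t N y' → |y - y'| < 1 / 6

/-- BAD: points of the first shell are bad. -/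
def T_BAD : Prop := ∀ (t : ℝ) (N : ℕ), Par t N → ∀ y : ℝ, 1 / 6 ≤ |y| → |y| ≤ 1 / 2 →
  gp t N y ≤ cost N

/-- EK: the Erdos-Kahane bound in the frequency variable. -/
def T_EK : Prop := ∀ (t : ℝ) (N : ℕ), Par t N → ∀ (W : ℕ) (Y : Finset ℝ), Sep Y →
  (∀ y ∈ Y, y ∈ shell t N W) →
  ∑ y ∈ Y, gp t (N * (W + 1)) y ≤ 7 * cost N * (1 + 4 * cost N) ^ W

/-- DIS: an integral from sums over progressions. -/
def T_DIS : Prop := ∀ (f : ℝ → ℝ≥0∞), Measurable f → ∀ (δ : ℝ), 0 < δ → ∀ c : ℝ≥0∞,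
  (∀ (z : ℝ) (F : Finset ℤ), ∑ m ∈ F, f (z + m * δ) ≤ c) →
  ∫⁻ y, f y ≤ ENNReal.ofReal δ * c

/-- ISH: the integral over a shell. -/
def T_ISH : Prop := ∀ (t : ℝ) (N : ℕ), Par t N → ∀ W : ℕ,
  ∫⁻ y in shell t N W, ENNReal.ofReal (gp t (N * (W + 1)) y)
    ≤ ENNReal.ofReal (2 * cost N * (1 + 4 * cost N) ^ W)

/-- CF: the characteristic function is continuous and bounded by the finite products. -/
def T_CF : Prop := ∀ t : ℝ, 0 < t → t < 1 → Continuous (cf t) ∧ ∀ (M : ℕ) (y : ℝ),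
  ‖cf t y‖ ≤ gp t M y

/-- HF: the high frequencies. -/
def T_HF : Prop := ∀ (t : ℝ) (N : ℕ), Par t N → cost N ≤ 1 / 16 → ∀ R : ℕ,
  ∫⁻ y in {y : ℝ | 1 / 6 ≤ |y|}, ENNReal.ofReal (‖cf t y‖ * min 1 (2 ^ R / |y|))
    ≤ ENNReal.ofReal (40 * (R + 1) * cost N * (1 + 4 * cost N) ^ R)

/-- LF: the low frequencies. -/
def T_LF : Prop := ∀ (t : ℝ) (N : ℕ), Par t N →
  ∫⁻ y in {y : ℝ | |y| ≤ 1 / 6}, ENNReal.ofReal ‖cf t y‖ ≤ ENNReal.ofReal (4 / √N)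

/-- LGP: pointwise comparison with the Gaussian for low frequencies. -/
def T_LGP : Prop := ∀ t : ℝ, 1 / 2 ≤ t → t < 1 → ∀ y : ℝ, |y| ≤ 1 / 6 →
  ‖cf t y - (cg t y : ℂ)‖ ≤ 220 * (y ^ 4 / (1 - t ^ 2)) * Real.exp (-(2 * y ^ 2 / (1 - t ^ 2)))

/-- LG: comparison with the Gaussian for low frequencies. -/
def T_LG : Prop := ∀ t : ℝ, 1 / 2 ≤ t → t < 1 →
  ∫⁻ y in {y : ℝ | |y| ≤ 1 / 6}, ENNReal.ofReal ‖cf t y - (cg t y : ℂ)‖
    ≤ ENNReal.ofReal (2000 * (1 - t) ^ (3 / 2 : ℝ))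

/-- GH: the high frequencies of the Gaussian. -/
def T_GH : Prop := ∀ t : ℝ, 0 < t → t < 1 →
  ∫⁻ y in {y : ℝ | 1 / 6 ≤ |y|}, ENNReal.ofReal (cg t y)
    ≤ ENNReal.ofReal (4 * Real.exp (-(1 / (30 * (1 - t)))))

/-- SM: comparison of interval probabilities (smoothing with Gaussians, then the limit). -/
def T_SM : Prop := ∀ (μ ρ : Measure ℝ) [IsFiniteMeasure μ] [IsFiniteMeasure ρ] (a b : ℝ),
  a < b → μ (Ioo a b) ≤ ρ (Icc a b) + ∫⁻ y : ℝ, ENNReal.ofReal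
    (‖charFun μ (Real.pi * y) - charFun ρ (Real.pi * y)‖ * min ((b - a) / 2) (1 / |y|))

/-- CGA: cg is the characteristic function of the Gaussian. -/
def T_CGA : Prop := ∀ t : ℝ, 0 < t → t < 1 → ∀ y : ℝ,
  charFun (gaussianReal 0 (Real.toNNReal (1 / (1 - t ^ 2)))) (Real.pi * y) = (cg t y : ℂ)

/-- WIN: the window length near one. -/
def T_WIN : Prop := ∃ t₀ : ℝ, t₀ < 1 ∧ ∀ t : ℝ, t₀ < t → t < 1 →
  ∃ N : ℕ, Par t N ∧ (N : ℝ) ≤ 1 / (1 - t) ∧ 1 / (1 - t) - 1 ≤ N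

/-- FRO: the bound for intervals of all lengths. -/
def T_FRO : Prop := ∃ t₀ : ℝ, t₀ < 1 ∧ ∀ t : ℝ, t₀ < t → t < 1 → ∀ a b : ℝ, a < b → b ≤ a + 1 →
  Pool.Agent.H91.BC.nu t (Icc a b) ≤ ENNReal.ofReal
    (4 * √(1 - t) * (b - a) ^ (1 - Real.exp (-(1 / (1300 * (1 - t))))))

/-- LLT: the local limit theorem. -/
def T_LLT : Prop := ∃ t₀ : ℝ, t₀ < 1 ∧ ∀ t : ℝ, t₀ < t → t < 1 → ∀ a b : ℝ,
  Real.exp (-Real.exp (1 / (1300 * (1 - t)))) ≤ b - a →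
  |(Pool.Agent.H91.BC.nu t).real (Icc a b)
      - (gaussianReal 0 (Real.toNNReal (1 / (1 - t ^ 2)))).real (Icc a b)|
    ≤ 1100 * (1 - t) ^ (3 / 2 : ℝ) * (b - a)

end Pool.Agent.H88.BL
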